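import Pool.Agent.H.MP_e06b60_al.Defs

set_option autoImplicit false

namespace Pool.Agent.H.MP_e06b60_al
open PowerSeries Filter Topology

noncomputable section

abbrev J : Type := Nott 2

theorem h2 : (2 : (ZMod 2)⟦X⟧) = 0 := by
  rw [← map_ofNat (C : ZMod 2 →+* (ZMod 2)⟦X⟧) 2, show (OfNat.ofNat 2 : ZMod 2) = 0 from rfl,
    map_zero]

def Jn (n : ℕ) : Subgroup J where
  carrier := {f | X ^ (n + 1) ∣ f.1 - X}
  mul_mem' := fun {a b} ha hb => by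
    have := cmul (f' := 1) (g' := 1) ha hb
    rwa [mul_one] at this
  one_mem' := crefl (1 : J)
  inv_mem' := fun {a} ha => by
    have := cinv (f' := 1) ha
    rwa [inv_one] at this

theorem mem_Jn {n : ℕ} {f : J} : f ∈ Jn n ↔ X ^ (n + 1) ∣ f.1 - X := Iff.rfl

theorem Jn_iff {n : ℕ} {f g : J} : f⁻¹ * g ∈ Jn n ↔ X ^ (n + 1) ∣ g.1 - f.1 := by
  refine ⟨fun h => ?_, fun h => ?_⟩
  · have := cmul (crefl f) (g' := 1) h
    rwa [mul_inv_cancel_left, mul_one] at this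
  · have := cmul (crefl f⁻¹) h
    rwa [inv_mul_cancel] at this

instance (n : ℕ) : (Jn n).Normal := ⟨fun a ha g => by
  have := cmul (cmul (crefl g) (g' := 1) ha) (crefl g⁻¹)
  rwa [mul_one, mul_inv_cancel] at this⟩

theorem Jn_anti {m n : ℕ} (h : m ≤ n) : Jn n ≤ Jn m := fun _ hf =>
  (pow_dvd_pow _ (by omega)).trans hf

theorem mem_J1 (f : J) : f ∈ Jn 1 := f.2

/-- Exact depth `k`. -/
def D (k : ℕ) (f : J) : Prop := X ^ (k + 2) ∣ f.1 - X - X ^ (k + 1)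

theorem D.mem {k : ℕ} {f : J} (h : D k f) : f ∈ Jn k := by
  have := dvd_add ((pow_dvd_pow _ (by omega : k + 1 ≤ k + 2)).trans h) (dvd_refl (X ^ (k + 1)))
  rwa [sub_add_cancel] at this

theorem D.not_mem {k : ℕ} {f : J} (h : D k f) : f ∉ Jn (k + 1) := fun h' => by
  have := dvd_sub h' h
  rw [sub_sub_cancel] at this
  have := X_pow_dvd_iff.1 this (k + 1) (by omega)
  simp at this

theorem D.div {k : ℕ} {f g : J} (h : D k f) (h' : D k g) : f⁻¹ * g ∈ Jn (k + 1) := by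
  have := dvd_sub h' h
  rw [Jn_iff]
  convert this using 1
  ring

theorem dich {k : ℕ} {f : J} (h : f ∈ Jn k) : f ∈ Jn (k + 1) ∨ D k f := by
  obtain ⟨q, hq⟩ := h
  have : ∀ a : ZMod 2, a = 0 ∨ a = 1 := by decide
  rcases this (constantCoeff q) with e | e
  · exact Or.inl (by rw [mem_Jn, hq, pow_succ _ (k + 1)]; exact mul_dvd_mul_left _ (X_dvd_iff.2 e))
  · refine Or.inr ?_
    rw [D, hq, ← mul_sub_one, pow_succ _ (k + 1)]
    exact mul_dvd_mul_left _ (X_dvd_iff.2 (by simp [e]))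

theorem fine {n : ℕ} (h : J) {c : J} (hc : c ∈ Jn n) :
    X ^ (n + 2) ∣ (h * c).1 - h.1 - (c.1 - X) := by
  obtain ⟨v, hv⟩ := h.2
  have hg := hs (c0 c.2)
  have a := dvdR (c0 c.2) (g' := X) (by simp) hc v
  rw [X_subst] at a
  rw [mul_val, sub_eq_iff_eq_add.1 hv, subst_add hg, subst_mul hg, subst_pow hg, subst_X hg,
    show c.1 ^ 2 * v.subst c.1 + c.1 - (X ^ 2 * v + X) - (c.1 - X) =
      (c.1 - X) * (c.1 + X) * v.subst c.1 + (v.subst c.1 - v) * X * X by ring]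
  exact dvd_add ((pow_succ (X : (ZMod 2)⟦X⟧) (n + 1) ▸ mul_dvd_mul hc
    (X_dvd_iff.2 (by simp [c0 c.2]))).mul_right _)
    ((pow_succ (X : (ZMod 2)⟦X⟧) (n + 1) ▸ mul_dvd_mul a dvd_rfl).mul_right _)

theorem sq_mem {k : ℕ} {f : J} (h : f ∈ Jn k) : f * f ∈ Jn (k + 1) := by
  have := fine f h
  rw [mem_Jn]
  convert this using 1
  linear_combination (f.1 - X) * h2

theorem pow_mem_Jn (f : J) (k : ℕ) : f ^ 2 ^ k ∈ Jn (k + 1) := by
  induction k with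
  | zero => exact mem_J1 _
  | succ k ih => rw [pow_succ, pow_mul, sq]; exact sq_mem ih

theorem D_of {n : ℕ} {A B : J} (h : X ^ (n + 2) ∣ A.1 - B.1 - X ^ (n + 1)) : D n (B⁻¹ * A) := by
  have a : B⁻¹ * A ∈ Jn n := Jn_iff.2 (by
    have := dvd_add ((pow_dvd_pow _ (by omega : n + 1 ≤ n + 2)).trans h) (dvd_refl (X ^ (n + 1)))
    rwa [sub_add_cancel] at this)
  have b := fine B a
  rw [mul_inv_cancel_left] at b
  have := dvd_sub h b
  rw [D]
  convert this using 1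
  ring

def mkJ (u : (ZMod 2)⟦X⟧) (h : X ^ 2 ∣ u) : J := ⟨X + u, by simpa using h⟩

def e : ℕ → J
  | 0 => 1
  | i + 1 => mkJ (X ^ (i + 2)) (pow_dvd_pow _ (by omega))

theorem e_mul (i : ℕ) (h : J) : (e (i + 1) * h).1 = h.1 + h.1 ^ (i + 2) := by
  have hg := hs (c0 h.2)
  change (X + X ^ (i + 2) : (ZMod 2)⟦X⟧).subst h.1 = _
  rw [subst_add hg, subst_pow hg, subst_X hg]

theorem e_val (i : ℕ) : (e (i + 1)).1 = X + X ^ (i + 2) := rfl

theorem e_D (i : ℕ) : D (i + 1) (e (i + 1)) := by simp [D, e_val]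

theorem e_mem (i : ℕ) : e i ∈ Jn i := by
  cases i with
  | zero => exact one_mem _
  | succ i => exact (e_D i).mem

theorem mk_mul (u : (ZMod 2)⟦X⟧) (h : X ^ 2 ∣ u) (g : J) :
    (mkJ u h * g).1 = g.1 + u.subst g.1 := by
  have hg := hs (c0 g.2)
  change (X + u : (ZMod 2)⟦X⟧).subst g.1 = _
  rw [subst_add hg, subst_X hg]

theorem pw {a b : (ZMod 2)⟦X⟧} {k : ℕ} (q : ℕ) (h : a ^ k = 1 + b) :
    ∃ y, (X * a) ^ (k * q) = X ^ (k * q) * (1 + b * y) := by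
  obtain ⟨y, hy⟩ := sub_dvd_pow_sub_pow (1 + b) 1 q
  refine ⟨y, ?_⟩
  rw [mul_pow, pow_mul a, h]
  congr 1
  linear_combination hy

theorem mk_val (u : (ZMod 2)⟦X⟧) (h : X ^ 2 ∣ u) : (mkJ u h).1 = X + u := rfl

theorem mk_mem {u : (ZMod 2)⟦X⟧} {k : ℕ} (h : X ^ 2 ∣ u) (h' : X ^ (k + 1) ∣ u) :
    mkJ u h ∈ Jn k := by
  rw [mem_Jn, mk_val, add_sub_cancel_left]; exact h'

theorem exist (n : ℕ) : ∃ f ∈ Jn (n + 6), ∃ i, D (n + 10) ((e i * f)⁻¹ * (f * e i)) := by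
  obtain ⟨q, rfl⟩ | ⟨q, rfl⟩ | ⟨q, rfl⟩ :
      (∃ q, n = 2 * q + 1) ∨ (∃ q, n = 4 * q + 2) ∨ ∃ q, n = 4 * q :=  by
    rcases (by omega : n % 2 = 1 ∨ n % 4 = 2 ∨ n % 4 = 0) with h | h | h
    exacts [.inl ⟨n / 2, by omega⟩, .inr (.inl ⟨n / 4, by omega⟩), .inr (.inr ⟨n / 4, by omega⟩)]
  · have hd : (X : (ZMod 2)⟦X⟧) ^ (2 * q + 1 + 6 + 1) ∣ X ^ (2 * (q + 5)) * X :=
      (pow_dvd_pow _ (by omega)).mul_right _
    refine ⟨_, mk_mem ((pow_dvd_pow _ (by omega)).trans hd) hd, 1, D_of ?_⟩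
    have hg := hs (c0 (e 1).2)
    obtain ⟨y, hy⟩ := pw (a := 1 + X) (b := X ^ 2) (k := 2) (q + 5)
      (by linear_combination X * h2)
    obtain ⟨S, hS⟩ : (X : (ZMod 2)⟦X⟧) ^ 2 ∣ X ^ (2 * (q + 5)) := pow_dvd_pow _ (by omega)
    rw [mk_mul, e_mul, subst_mul hg, subst_pow hg, subst_X hg, e_val, mk_val,
      show (X + X ^ (0 + 2) : (ZMod 2)⟦X⟧) = X * (1 + X) by ring, hy,
      show 2 * q + 1 + 10 + 2 = 2 * (q + 5) + 3 by omega, show 2 * q + 1 + 10 + 1 = 2 * (q + 5) + 2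
      by omega, pow_add _ (2 * (q + 5)), pow_add _ (2 * (q + 5)), hS]
    exact ⟨y + X * y + X * S, by linear_combination (-1 * X ^ 4 * S - 1 * X ^ 6 * S ^ 2) * h2⟩
  · have hd : (X : (ZMod 2)⟦X⟧) ^ (4 * q + 2 + 6 + 1) ∣ X ^ (4 * (q + 2)) * (X ^ 2 + X ^ 3) :=
      ⟨X + X ^ 2, by ring⟩
    refine ⟨_, mk_mem ((pow_dvd_pow _ (by omega)).trans hd) hd, 1, D_of ?_⟩
    have hg := hs (c0 (e 1).2)
    obtain ⟨y, hy⟩ := pw (a := 1 + X) (b := X ^ 4) (k := 4) (q + 2)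
      (by linear_combination (2 * X + 3 * X ^ 2 + 2 * X ^ 3) * h2)
    obtain ⟨S, hS⟩ : (X : (ZMod 2)⟦X⟧) ^ 2 ∣ X ^ (4 * (q + 2)) := pow_dvd_pow _ (by omega)
    rw [mk_mul, e_mul, subst_mul hg, subst_add hg, subst_pow hg, subst_pow hg, subst_pow hg,
      subst_X hg, e_val, mk_val, show (X + X ^ (0 + 2) : (ZMod 2)⟦X⟧) = X * (1 + X) by ring, hy,
      show 4 * q + 2 + 10 + 2 = 4 * (q + 2) + 6 by omega, show 4 * q + 2 + 10 + 1 = 4 * (q + 2) + 5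
      by omega, pow_add _ (4 * (q + 2)), pow_add _ (4 * (q + 2)), hS]
    exact ⟨1 + y + S + X * y + X ^ 2 * S + X ^ 3 * y + X ^ 4 * y, by
      linear_combination (X ^ 6 * S + X ^ 7 * S - 1 * X ^ 8 * S ^ 2 + X ^ 9 * S * y -
        1 * X ^ 9 * S ^ 2 + 2 * X ^ 10 * S * y - 1 * X ^ 10 * S ^ 2 + X ^ 11 * S * y) * h2⟩
  · have hd : (X : (ZMod 2)⟦X⟧) ^ (4 * q + 6 + 1) ∣ X ^ (4 * (q + 1)) * X ^ 3 := ⟨1, by ring⟩
    refine ⟨_, mk_mem ((pow_dvd_pow _ (by omega)).trans hd) hd, 2, D_of ?_⟩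
    have hg := hs (c0 (e 2).2)
    obtain ⟨y, hy⟩ := pw (a := 1 + X ^ 2) (b := X ^ 8) (k := 4) (q + 1)
      (by linear_combination (2 * X ^ 2 + 3 * X ^ 4 + 2 * X ^ 6) * h2)
    obtain ⟨S, hS⟩ : (X : (ZMod 2)⟦X⟧) ^ 2 ∣ X ^ (4 * (q + 1)) := pow_dvd_pow _ (by omega)
    rw [mk_mul, e_mul, subst_mul hg, subst_pow hg, subst_pow hg,
      subst_X hg, e_val, mk_val, show (X + X ^ (1 + 2) : (ZMod 2)⟦X⟧) = X * (1 + X ^ 2) by ring, hy,
      show 4 * q + 10 + 2 = 4 * (q + 1) + 8 by omega, show 4 * q + 10 + 1 = 4 * (q + 1) + 7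
      by omega, pow_add _ (4 * (q + 1)), pow_add _ (4 * (q + 1)), hS]
    exact ⟨X + X * S + X ^ 3 * y + X ^ 5 * y + X ^ 5 * S ^ 2 + X ^ 7 * y + X ^ 9 * y, by
      linear_combination (X ^ 9 * S - 2 * X ^ 11 * S ^ 2 + X ^ 15 * S * y -
        1 * X ^ 15 * S ^ 3 + X ^ 17 * S * y) * h2⟩

theorem not_comm {m : ℕ} {f : J} (h : D (m + 1) f) : f * e (m + 2) ≠ e (m + 2) * f := by
  intro hc
  obtain ⟨w, hw⟩ := h
  obtain ⟨v, hv⟩ : ∃ v, v = 1 + X * w := ⟨_, rfl⟩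
  have hf : f.1 = X + X ^ (m + 2) * v := by rw [hv]; linear_combination hw
  have hg := hs (c0 (e (m + 2)).2)
  obtain ⟨s, hs'⟩ := dvdR (c0 (e (m + 2)).2) (g' := X) (by simp) (e_mem (m + 2)) v
  rw [X_subst, sub_eq_iff_eq_add] at hs'
  obtain ⟨r, hr⟩ := sq_dvd_add_pow_sub_sub (X ^ (m + 2) : (ZMod 2)⟦X⟧) 1 (m + 2)
  obtain ⟨r', hr'⟩ := sq_dvd_add_pow_sub_sub (X ^ (m + 1) * v) 1 (m + 3)
  have a := congrArg Subtype.val hc
  rw [e_mul, mul_val, hf, subst_add hg, subst_mul hg, subst_pow hg, subst_X hg, hs', e_val,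
    show (X + X ^ (m + 1 + 2) : (ZMod 2)⟦X⟧) = X * (1 + X ^ (m + 2)) by ring,
    show (X + X ^ (m + 2) * v) ^ (m + 1 + 2) = (X * (1 + X ^ (m + 1) * v)) ^ (m + 3) by ring,
    mul_pow, mul_pow] at a
  simp only [one_pow, one_mul, Nat.cast_add, Nat.cast_ofNat, sub_sub, sub_eq_iff_eq_add] at hr hr'
  rw [hr, hr'] at a
  have b : (X : (ZMod 2)⟦X⟧) ^ (2 * m + 4) * v = X ^ (2 * m + 4) * (X * (X ^ (m + 1) * r * v +
      s * ((X ^ (m + 2)) ^ 2 * r + (X ^ (m + 2) * ((m : (ZMod 2)⟦X⟧) + 2) + 1)) - X ^ m * v ^ 2 * r')) := by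
    linear_combination -a
  have := mul_left_cancel₀ (pow_ne_zero _ X_ne_zero) b
  rw [hv] at this
  have := congrArg constantCoeff this
  simp at this

theorem center {f : J} (h : ∀ g, f * g = g * f) : f = 1 := by
  have a : ∀ k, f ∈ Jn (k + 1) := fun k => by
    induction k with
    | zero => exact mem_J1 f
    | succ k ih => exact (dich ih).resolve_right fun d => not_comm d (h _)
  refine Subtype.ext (PowerSeries.ext fun n => ?_)
  have := X_pow_dvd_iff.1 (a n) n (by omega)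
  rwa [map_sub, sub_eq_zero] at this

theorem emb : IsClosedEmbedding (cf : J → ℕ → ZMod 2) := by
  refine ⟨⟨⟨rfl⟩, fun f g h => Subtype.ext (PowerSeries.ext (congrFun h))⟩, ?_⟩
  have : Set.range (cf : J → ℕ → ZMod 2) = {a | a 0 = 0} ∩ {a | a 1 = 1} := by
    ext a
    constructor
    · rintro ⟨f, rfl⟩
      have a := X_pow_dvd_iff.1 f.2
      exact ⟨by simpa [cf] using a 0 (by omega), by simpa [cf, sub_eq_zero] using a 1 (by omega)⟩
    · rintro ⟨h0, h1⟩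
      refine ⟨⟨mk a, X_pow_dvd_iff.2 fun m hm => ?_⟩, funext fun n => coeff_mk n a⟩
      interval_cases m
      · simpa using h0
      · simpa [sub_eq_zero] using h1
  rw [this]
  exact (isClosed_eq (continuous_apply 0) continuous_const).inter
    (isClosed_eq (continuous_apply 1) continuous_const)

instance : CompactSpace J := emb.compactSpace
instance : T2Space J := emb.isEmbedding.t2Space
instance : TotallyDisconnectedSpace J :=
  emb.isEmbedding.isTotallyDisconnected_range.1 (isTotallyDisconnected_of_totallyDisconnectedSpace _)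

instance : Infinite J := Infinite.of_injective (fun i => e (i + 1)) fun i j h => by
  have := congrArg (fun f : J => coeff (i + 2) f.1) h
  simp only [e_val, map_add, add_right_inj, coeff_X_pow] at this
  by_contra hn
  simp [hn] at this

end

end Pool.Agent.H.MP_e06b60_al
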