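import Pool.Agent.H.MP_e06b60_al.B

set_option autoImplicit false

namespace Pool.Agent.H.MP_e06b60_al
open PowerSeries Filter Topology

noncomputable section

def toPS (a : ℕ) : (ZMod 2)⟦X⟧ := mk fun i => if a.testBit i then 1 else 0

theorem toPS_xor (a b : ℕ) : toPS (a ^^^ b) = toPS a + toPS b := by
  ext i
  simp only [toPS, coeff_mk, map_add, Nat.testBit_xor]
  cases a.testBit i <;> cases b.testBit i <;> decide

theorem toPS_two (a : ℕ) : toPS (2 * a) = X * toPS a := by
  ext i
  cases i with
  | zero => simp [toPS]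
  | succ i => simp [toPS, coeff_succ_X_mul, Nat.testBit_succ]

theorem toPS_zero : toPS 0 = 0 := by ext i; simp [toPS]

theorem toPS_one : toPS 1 = 1 := by
  ext i
  cases i with
  | zero => simp [toPS]
  | succ i => simp [toPS, Nat.testBit_succ, coeff_one]

theorem toPS_half (a : ℕ) : toPS a = (if a % 2 = 1 then 1 else 0) + X * toPS (a / 2) := by
  ext i
  cases i with
  | zero => by_cases h : a % 2 = 1 <;> simp [toPS, h]
  | succ i => by_cases h : a % 2 = 1 <;> simp [toPS, h, coeff_succ_X_mul, Nat.testBit_succ, coeff_one]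

theorem toPS_mod (a k : ℕ) : X ^ k ∣ toPS (a % 2 ^ k) - toPS a :=
  X_pow_dvd_iff.2 fun m hm => by simp [toPS, Nat.testBit_mod_two_pow, hm]

def mulN : ℕ → ℕ → ℕ → ℕ
  | 0, _, _ => 0
  | k + 1, a, b => (if a % 2 = 1 then b else 0) ^^^ (2 * mulN k (a / 2) b)

theorem mulN_spec (k a b : ℕ) : X ^ k ∣ toPS (mulN k a b) - toPS a * toPS b := by
  induction k generalizing a with
  | zero => simp
  | succ k ih =>
    obtain ⟨q, hq⟩ := ih (a / 2)
    rw [mulN, toPS_xor, toPS_two, toPS_half a]
    refine ⟨q, ?_⟩
    split_ifs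
    · linear_combination X * hq
    · rw [toPS_zero]; linear_combination X * hq

def powN (h : ℕ) : ℕ → ℕ
  | 0 => 1
  | k + 1 => mulN 36 h (powN h k) % 2 ^ 36

theorem powN_spec (h k : ℕ) : X ^ 36 ∣ toPS (powN h k) - toPS h ^ k := by
  induction k with
  | zero => simp [powN, toPS_one]
  | succ k ih =>
    have := dvd_add (dvd_add (toPS_mod (mulN 36 h (powN h k)) 36) (mulN_spec 36 h (powN h k)))
      (ih.mul_left (toPS h))
    rw [powN]
    convert this using 1
    ring

def evS : List ℕ → ℕ
  | [] => 2
  | 0 :: w => evS w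
  | (i + 1) :: w => evS w ^^^ powN (evS w) (i + 2)

theorem evS_spec (w : List ℕ) : X ^ 36 ∣ (w.map e).prod.1 - toPS (evS w) := by
  induction w with
  | nil =>
    have := toPS_two 1
    rw [toPS_one, mul_one, mul_one] at this
    simp [evS, this, one_val]
  | cons i w ih =>
    cases i with
    | zero => simpa [evS, e] using ih
    | succ i =>
      rw [List.map_cons, List.prod_cons, e_mul, evS, toPS_xor]
      have := dvd_sub (dvd_add ih (ih.trans (sub_dvd_pow_sub_pow _ _ (i + 2))))
        (powN_spec (evS w) (i + 2))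
      convert this using 1
      ring

def TT : List ℕ :=
  [1415692895568631373389430024791457701283719351297,
   140608984577633265020634082188369520558488131748,
   944835187523539688759899949216063424716482569314,
   329188402994083040644467734043310909771026885897,
   141019752373371318099705682872626853610637442709,
   329231610646699086560340937098483286767289855272,
   894563369325827245372913322929449321150673271972,
   1415736145457467064003680968032795983483024541697,
   705614148323340469319789481395008015291765050897,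
   1415736145457467064003680968032795983483024541697,
   329231610646699086560340937098483286767289855272,
   1415692895568631373389430024791457701283719351297,
   1459937574083762437872260440117279510589139389472,
   1415692895568631373389430024791457701283719351297,
   661369469890702021176931213214144950896330100272,
   1415692895568631373389430024791457701283719351297,
   1415692895568631373389430024791457701283719351297,
   1459980823972598128486511383358617792788444579872,
   1415736145457467064003680968032795983483024541697]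

def tb (i x : ℕ) : ℕ := (if i < 19 then TT.getD i 0 >>> (5 * x) else x) % 32

def fn (i : ℕ) (x : Fin 32) : Fin 32 := ⟨tb i x, Nat.mod_lt _ (by omega)⟩

theorem fn_big {i : ℕ} (h : 19 ≤ i) (x : Fin 32) : fn i x = x :=
  Fin.ext (by simp [fn, tb, not_lt.2 h, Nat.mod_eq_of_lt x.2])

theorem fn_inj (i : ℕ) : Function.Injective (fn i) := by
  by_cases h : i < 19
  · have : ∀ i < 19, ∀ x y : Fin 32, tb i x = tb i y → x = y := by decide +kernel
    exact fun x y e => this i h x y (congrArg Fin.val e)
  · intro x y e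
    rwa [fn_big (by omega), fn_big (by omega)] at e

def M : Type := Equiv.Perm (Fin 32)

instance : Group M := inferInstanceAs (Group (Equiv.Perm (Fin 32)))
instance : Finite M := inferInstanceAs (Finite (Equiv.Perm (Fin 32)))
instance : TopologicalSpace M := ⊥
instance : DiscreteTopology M := ⟨rfl⟩
instance : IsTopologicalGroup M where
  continuous_mul := continuous_of_discreteTopology
  continuous_inv := continuous_of_discreteTopology

def σ (i : ℕ) : M := Equiv.ofBijective (fn i) (Finite.injective_iff_bijective.1 (fn_inj i))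

def app (m : M) (x : Fin 32) : Fin 32 := (show Equiv.Perm (Fin 32) from m) x

theorem σ_big {i : ℕ} (h : 19 ≤ i) : σ i = 1 := Equiv.ext (fn_big h)

def evP (w : List ℕ) (x : ℕ) : ℕ := w.foldr tb x

theorem evP_spec (w : List ℕ) (x : Fin 32) : (app (w.map σ).prod x : ℕ) = evP w x := by
  induction w with
  | nil => rfl
  | cons i w ih =>
    rw [List.map_cons, List.prod_cons]
    exact congrArg (tb i) ih

def eqv (P : ℕ) (w w' : List ℕ) : Bool :=
  (evS w % 2 ^ P == evS w' % 2 ^ P) && (List.range 32).all fun x => evP w x == evP w' x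

def g (i : ℕ) : J × M := (e i, σ i)

def ev (w : List ℕ) : J × M := (w.map g).prod

theorem ev_eq (w : List ℕ) : ev w = ((w.map e).prod, (w.map σ).prod) := by
  induction w with
  | nil => rfl
  | cons i w ih =>
    rw [ev, List.map_cons, List.prod_cons, ← ev, ih]
    rfl

def K (n : ℕ) : Subgroup (J × M) := (Jn n).prod ⊥

theorem eqv_spec {n : ℕ} (hn : n < 36) {w w' : List ℕ} (h : eqv (n + 1) w w' = true) :
    (ev w)⁻¹ * ev w' ∈ K n := by
  simp only [eqv, Bool.and_eq_true, beq_iff_eq, List.all_eq_true, List.mem_range] at h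
  rw [ev_eq, ev_eq]
  refine ⟨Jn_iff.2 ?_, ?_⟩
  · have d : (X : (ZMod 2)⟦X⟧) ^ (n + 1) ∣ X ^ 36 := pow_dvd_pow _ hn
    have := dvd_add (dvd_sub (dvd_sub (d.trans (evS_spec w')) (d.trans (evS_spec w)))
      (toPS_mod (evS w') (n + 1))) (toPS_mod (evS w) (n + 1))
    rw [h.1] at this
    convert this using 1
    ring
  · exact Subgroup.mem_bot.2 (inv_mul_eq_one.2 (Equiv.ext fun x => Fin.ext
      ((evP_spec w x).trans ((h.2 x x.2).trans (evP_spec w' x).symm))))

def tab : List (List ℕ) :=
  [[0, 0, 0, 0, 0, 0, 0, 0, 0, 0, 0, 0, 0, 0, 0, 0, 0, 0, 0],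
   [0, 8, 233597, 8, 244528, 33441, 229312, 129, 197376, 133632, 277505, 34817, 208897, 172033,
    507904, 32768, 196608, 131072, 262145],
   [0, 0, 267600, 397225, 279568, 192672, 1089, 502401, 262401, 2560, 17409, 174080, 4097, 40961,
    278528, 163840, 65536, 131072, 262145],
   [0, 0, 0, 32768, 100497, 133153, 4672, 128, 2304, 33281, 74752, 2048, 36865, 8192, 147457,
    32768, 65536, 131072, 262144],
   [0, 0, 0, 0, 257, 544, 16449, 34945, 256, 8704, 263168, 34817, 4097, 139264, 16385, 32768,
    65536, 131072, 262145],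
   [0, 0, 0, 0, 0, 32768, 67649, 128, 8448, 512, 33793, 2048, 135168, 8192, 16385, 32768, 65536,
    131072, 262144],
   [0, 0, 0, 0, 0, 0, 266240, 8320, 256, 33280, 1025, 133120, 4097, 8192, 16385, 32768, 65536,
    131072, 262145],
   [0, 0, 0, 0, 0, 0, 0, 0, 33025, 512, 132096, 2048, 4096, 8192, 16384, 32768, 65536, 131072,
    262144],
   [0, 0, 0, 0, 0, 0, 0, 0, 65536, 131584, 1025, 2048, 4096, 8192, 16384, 32768, 65536, 131072,
    262144],
   [0, 0, 0, 0, 0, 0, 0, 0, 0, 0, 1024, 2048, 4096, 8192, 16384, 32768, 65536, 131072, 262144],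
   [0, 0, 0, 0, 0, 0, 0, 0, 0, 0, 1, 2048, 4096, 8192, 16385, 32768, 65536, 131072, 262144],
   [0, 0, 0, 0, 0, 0, 0, 0, 0, 0, 0, 0, 4096, 8192, 16384, 32768, 65536, 131072, 262144],
   [0, 0, 0, 0, 0, 0, 0, 0, 0, 0, 0, 0, 0, 8192, 16384, 32768, 65536, 131072, 262144],
   [0, 0, 0, 0, 0, 0, 0, 0, 0, 0, 0, 0, 0, 0, 16384, 32768, 65536, 131072, 262144],
   [0, 0, 0, 0, 0, 0, 0, 0, 0, 0, 0, 0, 0, 0, 1, 32768, 65536, 131072, 262144],
   [0, 0, 0, 0, 0, 0, 0, 0, 0, 0, 0, 0, 0, 0, 0, 0, 65536, 131072, 262144],
   [0, 0, 0, 0, 0, 0, 0, 0, 0, 0, 0, 0, 0, 0, 0, 0, 0, 131072, 262144],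
   [0, 0, 0, 0, 0, 0, 0, 0, 0, 0, 0, 0, 0, 0, 0, 0, 0, 0, 262144],
   [0, 0, 0, 0, 0, 0, 0, 0, 0, 0, 0, 0, 0, 0, 0, 0, 0, 0, 0]]

def W (m : ℕ) : List ℕ := (List.range 36).filter m.testBit

def rw' (i j : ℕ) : List ℕ := W ((tab.getD i []).getD j 0)

theorem pc : ∀ i < 19, 0 < i → (eqv 20 [0, i] [i, 0] && eqv 20 (rw' i i) [i, i] &&
    (List.range 19).all fun j => (rw' i j).all (fun l => l == 0 || i < l) &&
      (j ≤ i || eqv 20 (i :: rw' i j) [j, i])) = true := by
  decide +kernel

def cm (x i c : ℕ) : Bool := eqv 36 (i :: (W x ++ W c)) (W x ++ [i])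

theorem a1 : cm 16 2 5642667008 = true := by decide +kernel
theorem a2 : cm 5642667008 4 340000768 = true := by decide +kernel
theorem a3 : cm 340000768 4 18320719873 = true := by decide +kernel
theorem a4 : cm 18320719873 2 18253611008 = true := by decide +kernel
theorem b1 : cm 64 2 4366271489 = true := by decide +kernel
theorem b2 : cm 4366271489 2 1413496833 = true := by decide +kernel
theorem b3 : cm 1413496833 2 4456448 = true := by decide +kernel
theorem b4 : cm 4456448 6 18253611009 = true := by decide +kernel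

end

end Pool.Agent.H.MP_e06b60_al
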