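import Pool.Agent.H.MP_e06b60_al.C

set_option autoImplicit false

namespace Pool.Agent.H.MP_e06b60_al
open PowerSeries Filter Topology

noncomputable section

section
variable {G G' : Type} [Group G] [TopologicalSpace G] [IsTopologicalGroup G]
  [Group G'] [TopologicalSpace G'] [IsTopologicalGroup G']

theorem lcs_closed (i : ℕ) : IsClosed (lcs G i : Set G) := by
  cases i with
  | zero => exact isClosed_univ
  | succ i => exact Subgroup.isClosed_topologicalClosure _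

theorem lcs_succ_le (i : ℕ) : lcs G (i + 1) ≤ lcs G i :=
  Subgroup.topologicalClosure_minimal _ (Subgroup.commutator_le_left _ _) (lcs_closed i)

theorem lcs_step {i : ℕ} {x : G} (h : x ∈ lcs G i) (y : G) :
    (y * x)⁻¹ * (x * y) ∈ (⁅lcs G i, ⊤⁆ : Subgroup G) := by
  have := Subgroup.commutator_mem_commutator (inv_mem h) (Subgroup.mem_top y⁻¹)
  convert this using 1
  rw [commutatorElement_def]
  group

theorem map_lcs [CompactSpace G] [T2Space G'] (π : G →* G') (hc : Continuous π)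
    (hs : Function.Surjective π) (i : ℕ) : (lcs G i).map π = lcs G' i := by
  induction i with
  | zero => exact Subgroup.map_top_of_surjective π hs
  | succ i ih =>
    apply SetLike.coe_injective
    rw [lcs, lcs, ← ih, ← Subgroup.map_top_of_surjective π hs, ← Subgroup.map_commutator]
    exact (hc.isClosedMap.closure_image_eq_of_continuous hc _).symm

theorem quot_iso [CompactSpace G] [T2Space G'] (π : G →* G') (hc : Continuous π)
    (hs : Function.Surjective π) (i : ℕ) (hk : π.ker ≤ lcs G i) :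
    Nonempty ((G ⧸ lcs G i) ≃ₜ* (G' ⧸ lcs G' i)) := by
  have := lcs_closed (G := G') i
  let φ := QuotientGroup.liftEquiv (lcs G i) (φ := (QuotientGroup.mk' (lcs G' i)).comp π)
    ((QuotientGroup.mk'_surjective _).comp hs) (by
      rw [← MonoidHom.comap_ker, QuotientGroup.ker_mk', ← map_lcs π hc hs,
        Subgroup.comap_map_eq, sup_eq_left.2 hk])
  have c : Continuous φ := (QuotientGroup.isQuotientMap_mk _).continuous_iff.2
    (QuotientGroup.continuous_mk.comp hc)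
  exact ⟨⟨φ, c, (c.homeoOfEquivCompactToT2 (f := φ.toEquiv)).continuous_symm⟩⟩

end

theorem two {Γ : Type} [Group Γ] (A : Subgroup Γ) (a : Γ) (h1 : a * a ∈ A)
    (h2 : ∀ y ∈ A, a⁻¹ * y * a ∈ A) : ∃ S : Subgroup Γ, ∀ x, x ∈ S ↔ x ∈ A ∨ a⁻¹ * x ∈ A := by
  have h3 : ∀ y ∈ A, a * y * a⁻¹ ∈ A := fun y hy => by
    have := mul_mem (mul_mem h1 (h2 y hy)) (inv_mem h1)
    convert this using 1
    group
  refine ⟨⟨⟨⟨{x | x ∈ A ∨ a⁻¹ * x ∈ A}, ?_⟩, Or.inl (one_mem _)⟩, ?_⟩, fun x => Iff.rfl⟩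
  · rintro x y (hx | hx) (hy | hy)
    · exact Or.inl (mul_mem hx hy)
    · refine Or.inr ?_
      convert mul_mem (h2 x hx) hy using 1
      group
    · exact Or.inr (mul_assoc a⁻¹ x y ▸ mul_mem hx hy)
    · refine Or.inl ?_
      convert mul_mem (mul_mem (h3 _ hx) h1) hy using 1
      group
  · rintro x (hx | hx)
    · exact Or.inl (inv_mem hx)
    · refine Or.inr ?_
      convert mul_mem (h2 _ (inv_mem hx)) (inv_mem h1) using 1
      group

theorem ev_cons (i : ℕ) (w : List ℕ) : ev (i :: w) = g i * ev w := by simp [ev]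

theorem ev_nil : ev [] = 1 := rfl

theorem ev_append (w w' : List ℕ) : ev (w ++ w') = ev w * ev w' := by simp [ev]

def N : Subgroup (J × M) := (Jn 19).prod (Subgroup.zpowers (σ 0))

def HH (k : ℕ) : Subgroup (J × M) := Subgroup.closure {x | x ∈ N ∨ ∃ i, k ≤ i ∧ x = g i}

theorem K_N : K 19 ≤ N := Subgroup.prod_mono le_rfl bot_le

theorem N_H (k : ℕ) : N ≤ HH k := fun _ h => Subgroup.subset_closure (Or.inl h)

theorem g_H {k i : ℕ} (h : i = 0 ∨ k ≤ i) : g i ∈ HH k := by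
  rcases h with rfl | h
  · exact N_H k ⟨one_mem _, Subgroup.mem_zpowers _⟩
  · exact Subgroup.subset_closure (Or.inr ⟨i, h, rfl⟩)

theorem g_N {i : ℕ} (h : 19 ≤ i) : g i ∈ N :=
  ⟨Jn_anti h (e_mem i), by rw [g, σ_big h]; exact one_mem _⟩

theorem H19 : HH 19 ≤ N := (Subgroup.closure_le _).2 (by
  rintro x (h | ⟨i, h, rfl⟩)
  exacts [h, g_N h])

theorem ev_H {k : ℕ} {w : List ℕ} (h : ∀ l ∈ w, l = 0 ∨ k ≤ l) : ev w ∈ HH k :=
  list_prod_mem (by
    simp only [List.mem_map]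
    rintro _ ⟨l, hl, rfl⟩
    exact g_H (h l hl))

theorem H_J {k : ℕ} (hk : k ≤ 19) : HH k ≤ (Jn k).comap (MonoidHom.fst _ _) :=
  (Subgroup.closure_le _).2 (by
    rintro x (h | ⟨i, h, rfl⟩)
    exacts [Jn_anti hk h.1, Jn_anti h (e_mem i)])

theorem σ_comm (i : ℕ) : Commute (σ 0) (σ i) := by
  rcases (by omega : i = 0 ∨ 19 ≤ i ∨ (i < 19 ∧ 0 < i)) with rfl | h | h
  · exact Commute.refl _
  · rw [σ_big h]; exact Commute.one_right _
  · have a := pc i h.1 h.2
    simp only [Bool.and_eq_true] at a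
    have := Subgroup.mem_bot.1 (eqv_spec (by omega) a.1.1).2
    have b := inv_mul_eq_one.1 this
    simpa [ev_eq, commute_iff_eq] using b

theorem step {k : ℕ} (h0 : 0 < k) (hk : k < 19) {x : J × M} (hx : x ∈ HH k) :
    x ∈ HH (k + 1) ∨ (g k)⁻¹ * x ∈ HH (k + 1) := by
  have a := pc k hk h0
  simp only [Bool.and_eq_true, List.all_eq_true, List.mem_range, Bool.or_eq_true, beq_iff_eq,
    decide_eq_true_eq] at a
  have b : ∀ j < 19, ev (rw' k j) ∈ HH (k + 1) := fun j hj => ev_H (a.2 j hj).1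
  obtain ⟨S, hS⟩ := two (HH (k + 1)) (g k) (by
      have := mul_mem (b k hk) (N_H _ (K_N (eqv_spec (by omega) a.1.2)))
      simpa [ev] using this) (by
      have : HH (k + 1) ≤ (HH (k + 1)).comap (MulAut.conj (g k)⁻¹).toMonoidHom :=
        (Subgroup.closure_le _).2 (by
          have n : ∀ y ∈ N, (g k)⁻¹ * y * g k ∈ HH (k + 1) := fun y hy => N_H _ ⟨by
            simpa [g] using (inferInstance : (Jn 19).Normal).conj_mem _ hy.1 (e k)⁻¹, by
            obtain ⟨n, hn⟩ := hy.2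
            refine ⟨n, ?_⟩
            change _ = (σ k)⁻¹ * y.2 * σ k
            rw [← hn, mul_assoc, ((σ_comm k).zpow_left n).eq, inv_mul_cancel_left]⟩
          rintro y (h | ⟨j, h, rfl⟩)
          · simpa using n y h
          · by_cases hj : j < 19
            · have := mul_mem (b j hj) (N_H _ (K_N (eqv_spec (by omega)
                ((a.2 j hj).2.resolve_left (by omega)))))
              simpa [ev_cons, ev_nil, mul_assoc] using this
            · simpa using n _ (g_N (by omega)))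
      intro y hy
      simpa using this hy)
  refine (hS x).1 ((Subgroup.closure_le S).2 ?_ hx)
  rintro y (h | ⟨j, h, rfl⟩)
  · exact (hS y).2 (Or.inl (N_H _ h))
  · rcases h.eq_or_lt with rfl | h
    · exact (hS _).2 (Or.inr (by simp))
    · exact (hS _).2 (Or.inl (g_H (Or.inr h)))

theorem ker (d : ℕ) : ∀ k, k + d = 19 → 0 < k → ∀ x ∈ HH k, x.1 ∈ Jn 19 → x ∈ N := by
  induction d with
  | zero => rintro k rfl _ x hx _; exact H19 hx
  | succ d ih =>
    intro k hk h0 x hx h1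
    refine ih (k + 1) (by omega) (by omega) x ((step h0 (by omega) hx).resolve_right fun h => ?_) h1
    obtain ⟨k, rfl⟩ : ∃ k', k = k' + 1 := ⟨k - 1, by omega⟩
    have a : (e (k + 1))⁻¹ * x.1 ∈ Jn (k + 1 + 1) := H_J (by omega) h
    have := mul_mem (Jn_anti (by omega : k + 1 + 1 ≤ 19) h1) (inv_mem a)
    exact (e_D k).not_mem (by simpa using this)

theorem surj (d : ℕ) : ∀ k, k + d = 19 → 0 < k → ∀ f ∈ Jn k, ∃ m, (f, m) ∈ HH k := by
  induction d with
  | zero => rintro k rfl _ f hf; exact ⟨1, N_H _ ⟨hf, one_mem _⟩⟩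
  | succ d ih =>
    intro k hk h0 f hf
    have le : HH (k + 1) ≤ HH k := Subgroup.closure_mono (by
      rintro x (h | ⟨i, h, rfl⟩)
      exacts [Or.inl h, Or.inr ⟨i, by omega, rfl⟩])
    rcases dich hf with h | h
    · exact (ih (k + 1) (by omega) (by omega) f h).imp fun m hm => le hm
    · obtain ⟨k, rfl⟩ : ∃ k', k = k' + 1 := ⟨k - 1, by omega⟩
      obtain ⟨m, hm⟩ := ih (k + 1 + 1) (by omega) (by omega) _ ((e_D k).div h)
      exact ⟨σ (k + 1) * m, by simpa [g] using mul_mem (g_H (k := k + 1) (Or.inr le_rfl)) (le hm)⟩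

abbrev G : Type := HH 1

def π : G →* J := (MonoidHom.fst _ _).comp (HH 1).subtype

theorem π_cont : Continuous π := continuous_fst.comp continuous_subtype_val

theorem π_surj : Function.Surjective π := fun f => by
  obtain ⟨m, hm⟩ := surj 18 1 rfl one_pos f (mem_J1 f)
  exact ⟨⟨_, hm⟩, rfl⟩

theorem G_open : IsOpen (HH 1 : Set (J × M)) :=
  Subgroup.isOpen_of_mem_nhds (g := 1) _ (by
    have a : ∀ᶠ x : J × M in 𝓝 1, x.1 ∈ Jn 19 := continuous_fst.continuousAt.eventually (evt 20 1)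
    have b : ∀ᶠ x : J × M in 𝓝 1, x.2 = 1 :=
      continuous_snd.continuousAt.eventually (p := fun m : M => m = 1)
        ((isOpen_discrete {(1 : M)}).mem_nhds rfl)
    exact (a.and b).mono fun x h => N_H _ (K_N ⟨h.1, h.2⟩))

instance : CompactSpace G :=
  isCompact_iff_compactSpace.1 ((HH 1).isClosed_of_isOpen G_open).isCompact

theorem tend {y : ℕ → G} {x : G} (h : ∀ n, ((y n)⁻¹ * x : G).1 ∈ K n) : Tendsto y atTop (𝓝 x) := by
  rw [tendsto_subtype_rng, Prod.tendsto_iff]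
  refine ⟨tendN fun n => (eventually_ge_atTop n).mono fun m hm => ?_, ?_⟩
  · exact dvd_sub_comm.1 ((pow_dvd_pow _ (by omega)).trans (Jn_iff.1 (h m).1))
  · exact tendsto_const_nhds.congr fun n => (inv_mul_eq_one.1 (Subgroup.mem_bot.1 (h n).2)).symm

def gG (i : ℕ) : G := ⟨g i, g_H (by omega)⟩

def evG (w : List ℕ) : G := ⟨ev w, ev_H fun l _ => by omega⟩

theorem deep {k j : ℕ} (hk : 19 ≤ k) (h : ∀ x : G, x.1 ∈ K k → x ∈ lcs G j) (x : G)
    (hx : x.1 ∈ K (k + 4)) : x ∈ lcs G (j + 1) := by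
  have a : ∀ n, ∃ y ∈ (⁅lcs G j, ⊤⁆ : Subgroup G), (y⁻¹ * x : G).1 ∈ K (k + 4 + n) := by
    intro n
    induction n with
    | zero => exact ⟨1, one_mem _, by simpa using hx⟩
    | succ n ih =>
      obtain ⟨y, hy, hy'⟩ := ih
      rcases dich hy'.1 with d | d
      · exact ⟨y, hy, d, hy'.2⟩
      · obtain ⟨f, hf, i, hi⟩ := exist (k + n - 6)
        have hf' : (f, (1 : M)) ∈ K k := ⟨Jn_anti (by omega) hf, one_mem _⟩
        let f' : G := ⟨(f, 1), N_H _ (K_N ⟨Jn_anti hk hf'.1, one_mem _⟩)⟩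
        rw [show k + n - 6 + 10 = k + 4 + n by omega] at hi
        refine ⟨y * ((gG i * f')⁻¹ * (f' * gG i)), mul_mem hy (lcs_step (h f' hf') _), ?_, ?_⟩
        · rw [mul_inv_rev, mul_assoc]; exact hi.div d
        · rw [mul_inv_rev, mul_assoc]
          have : (y⁻¹ * x : G).1.2 = 1 := hy'.2
          change ((σ i * 1)⁻¹ * (1 * σ i))⁻¹ * (y⁻¹ * x : G).1.2 ∈ (⊥ : Subgroup M)
          rw [this]
          simp
  choose y hy hy' using a
  exact mem_closure_of_tendsto (tend fun n => ⟨Jn_anti (by omega) (hy' n).1, (hy' n).2⟩)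
    (Eventually.of_forall hy)

theorem deep4 (x : G) (hx : x.1 ∈ K 35) : x ∈ lcs G 4 :=
  deep (k := 31) (by omega) (deep (k := 27) (by omega) (deep (k := 23) (by omega)
    (deep (k := 19) (j := 0) le_rfl fun _ _ => Subgroup.mem_top _))) x hx

theorem cm_step {j x i c : ℕ} (hj : ∀ x : G, x ∈ lcs G 4 → x ∈ lcs G (j + 1))
    (hx : evG (W x) ∈ lcs G j) (h : cm x i c = true) : evG (W c) ∈ lcs G (j + 1) := by
  have a := hj ((gG i * (evG (W x) * evG (W c)))⁻¹ * (evG (W x) * gG i)) (deep4 _ (by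
    have := eqv_spec (n := 35) (by omega) h
    rwa [ev_cons, ev_append, ev_append, ev_cons, ev_nil, mul_one] at this))
  have b : (gG i * evG (W x))⁻¹ * (evG (W x) * gG i) ∈ lcs G (j + 1) :=
    Subgroup.le_topologicalClosure _ (lcs_step hx (gG i))
  have := mul_mem b (inv_mem a)
  rwa [show (gG i * evG (W x))⁻¹ * (evG (W x) * gG i) *
    ((gG i * (evG (W x) * evG (W c)))⁻¹ * (evG (W x) * gG i))⁻¹ = evG (W c) by group] at this

theorem z_mem : gG 0 ∈ lcs G 4 := by
  have l4 : ∀ x : G, x ∈ lcs G 4 → x ∈ lcs G 4 := fun _ h => h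
  have l3 : ∀ x : G, x ∈ lcs G 4 → x ∈ lcs G 3 := fun _ h => lcs_succ_le _ h
  have l2 : ∀ x : G, x ∈ lcs G 4 → x ∈ lcs G 2 := fun _ h => lcs_succ_le _ (l3 _ h)
  have l1 : ∀ x : G, x ∈ lcs G 4 → x ∈ lcs G 1 := fun _ h => lcs_succ_le _ (l2 _ h)
  have a := cm_step l4 (cm_step l3 (cm_step l2 (cm_step l1 (Subgroup.mem_top _) a1) a2) a3) a4
  have b := cm_step l4 (cm_step l3 (cm_step l2 (cm_step l1 (Subgroup.mem_top _) b1) b2) b3) b4
  have e : W 18253611009 = 0 :: W 18253611008 := by decide +kernel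
  have := mul_mem b (inv_mem a)
  rwa [e, show evG (0 :: W 18253611008) = gG 0 * evG (W 18253611008) from
    Subtype.ext (ev_cons _ _), mul_inv_cancel_right] at this

theorem ker_le : π.ker ≤ lcs G 4 := fun x hx => by
  have h1 : x.1.1 = 1 := hx
  obtain ⟨n, hn⟩ := (ker 18 1 rfl one_pos _ x.2 (h1 ▸ one_mem _)).2
  have : x = gG 0 ^ n := Subtype.ext (Prod.ext (by simp [h1, gG, g, e]) (by simp [gG, g, ← hn]))
  exact this ▸ zpow_mem z_mem n

theorem z_comm (x : G) : gG 0 * x = x * gG 0 := by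
  have : HH 1 ≤ Subgroup.centralizer {g 0} := (Subgroup.closure_le _).2 (by
    rintro y (⟨_, n, hn⟩ | ⟨i, _, rfl⟩) _ rfl
    · exact Prod.ext (by simp [g, e]) (by
        have hn' : σ 0 ^ n = y.2 := hn
        change σ 0 * y.2 = y.2 * σ 0
        rw [← hn']; exact ((Commute.refl _).zpow_right n).eq)
    · exact Prod.ext (by simp [g, e]) (σ_comm i).eq)
  exact Subtype.ext (this x.2 _ rfl)

theorem z_ne : gG 0 ≠ 1 := fun h => by
  have := congrArg (fun x : G => (app x.1.2 0 : ℕ)) h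
  exact absurd (show tb 0 0 = 0 from this) (by decide +kernel)

theorem σ_sq : σ 0 ^ 2 = 1 := by
  have := Subgroup.mem_bot.1 (eqv_spec (n := 0) (w := []) (w' := [0, 0]) (by omega)
    (by decide +kernel)).2
  simpa [ev_eq, sq] using this

theorem pw2 (x : G) {a b c n : ℕ} (h : x.1.1 ^ a ∈ Jn 19) (hc : c = a * (2 * b))
    (h' : x.1.1 ^ c ∈ Jn n) : (x ^ c : G).1 ∈ K n := by
  obtain ⟨m, hm⟩ := (ker 18 1 rfl one_pos _ (x ^ a).2 h).2
  have hm' : σ 0 ^ m = x.1.2 ^ a := hm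
  refine ⟨h', ?_⟩
  change x.1.2 ^ c = 1
  rw [hc, pow_mul, ← hm', ← zpow_natCast, zpow_comm, zpow_natCast, pow_mul, σ_sq, one_pow, one_zpow]

theorem pw3 (x : G) (k : ℕ) (hk : k + 1 = 19) (n : ℕ) : (x ^ 2 ^ (n + k + 1) : G).1 ∈ K n :=
  pw2 x (b := 2 ^ n) (hk ▸ pow_mem_Jn x.1.1 k) (by ring)
    (Jn_anti (by omega) (pow_mem_Jn x.1.1 (n + k + 1)))

theorem proP : IsProP 2 G := by
  refine ⟨inferInstance, inferInstance, inferInstance, fun U _ hU => ?_⟩
  have := U.quotient_finite_of_isOpen hU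
  refine (IsPGroup.iff_card (p := 2) (G := G ⧸ U)).1 fun x => ?_
  obtain ⟨x, rfl⟩ := QuotientGroup.mk_surjective x
  obtain ⟨k, hk⟩ : ∃ k, k + 1 = 19 := ⟨18, rfl⟩
  have t : Tendsto (fun n => x ^ 2 ^ (n + k + 1)) atTop (𝓝 1) := tend fun n => by
    rw [mul_one]
    exact (K n).inv_mem (pw3 x k hk n)
  obtain ⟨n, hn⟩ := (t.eventually (hU.mem_nhds (one_mem U))).exists
  exact ⟨n + k + 1, by rw [← QuotientGroup.mk_pow, QuotientGroup.eq_one_iff]; exact hn⟩

theorem main : IsProP 2 G ∧ Infinite G ∧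
    Nonempty ((G ⧸ lcs G 4) ≃ₜ* (J ⧸ lcs J 4)) ∧ IsEmpty (G ≃* J) :=
  ⟨proP, Infinite.of_surjective π π_surj, quot_iso π π_cont π_surj 4 ker_le, ⟨fun φ =>
    z_ne ((map_eq_one_iff φ φ.injective).1 (center fun f => by
      obtain ⟨x, rfl⟩ := φ.surjective f
      rw [← map_mul, z_comm, map_mul]))⟩⟩

end

end Pool.Agent.H.MP_e06b60_al
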