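import Mathlib

set_option autoImplicit false

namespace Pool.Agent.H.MP_e06b60_al
open PowerSeries Filter Topology

noncomputable section

section
variable {R : Type} [CommRing R]

theorem c0 {f : R⟦X⟧} (h : X ^ 2 ∣ f - X) : constantCoeff f = 0 := by
  have := X_pow_dvd_iff.1 h 0 (by norm_num)
  simpa using this

theorem c1 {f : R⟦X⟧} (h : X ^ 2 ∣ f - X) : IsUnit (coeff 1 f) := by
  have := X_pow_dvd_iff.1 h 1 (by norm_num)
  rw [map_sub, coeff_one_X, sub_eq_zero] at this
  exact this ▸ isUnit_one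

theorem hs {g : R⟦X⟧} (h : constantCoeff g = 0) : HasSubst g := .of_constantCoeff_zero' h

theorem dvdL {g f f' : R⟦X⟧} (h : constantCoeff g = 0) {n : ℕ} (hf : X ^ n ∣ f - f') :
    X ^ n ∣ f.subst g - f'.subst g := by
  obtain ⟨q, e⟩ := hf
  rw [← subst_sub (hs h), e, subst_mul (hs h), subst_pow (hs h), subst_X (hs h)]
  exact (pow_dvd_pow_of_dvd (X_dvd_iff.2 h) n).mul_right _

theorem dvdR {g g' : R⟦X⟧} (h : constantCoeff g = 0) (h' : constantCoeff g' = 0) {n : ℕ}
    (e : X ^ n ∣ g - g') (f : R⟦X⟧) : X ^ n ∣ f.subst g - f.subst g' := by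
  have key : ∀ m ≤ n, ∀ f : R⟦X⟧, X ^ m ∣ f.subst g - f.subst g' := by
    intro m
    induction m with
    | zero => simp
    | succ m ih =>
      intro hm f
      obtain ⟨q, hq⟩ : X ∣ f - C (constantCoeff f) := X_dvd_iff.2 (by simp)
      have a : ∀ g : R⟦X⟧, constantCoeff g = 0 →
          f.subst g = g * q.subst g + C (constantCoeff f) := fun g h => by
        conv_lhs => rw [sub_eq_iff_eq_add.1 hq]
        rw [subst_add (hs h), subst_mul (hs h), subst_X (hs h), subst_C]; rfl
      rw [a g h, a g' h', show g * q.subst g + C (constantCoeff f) -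
        (g' * q.subst g' + C (constantCoeff f)) =
        (g - g') * q.subst g + (q.subst g - q.subst g') * g' by ring]
      exact dvd_add (((pow_dvd_pow _ hm).trans e).mul_right _)
        (pow_succ (X : R⟦X⟧) m ▸ mul_dvd_mul (ih (by omega) q) (X_dvd_iff.2 h'))
  exact key n le_rfl f

theorem mul_ok {f g : R⟦X⟧} (hf : X ^ 2 ∣ f - X) (hg : X ^ 2 ∣ g - X) :
    X ^ 2 ∣ f.subst g - X := by
  have := dvd_add (dvdL (c0 hg) hf) hg
  rwa [subst_X (hs (c0 hg)), sub_add_sub_cancel] at this

theorem inv_ok {f : R⟦X⟧} (hf : X ^ 2 ∣ f - X) : X ^ 2 ∣ f.substInvOfIsUnit (c1 hf) - X := by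
  have h := constantCoeff_substInvOfIsUnit f (c1 hf)
  have := dvdL h hf
  rw [subst_X (hs h), subst_substInvOfIsUnit_right f (c0 hf)] at this
  exact dvd_sub_comm.1 this

theorem one_ok : (X : R⟦X⟧) ^ 2 ∣ X - X := by simp

end

/-- The Nottingham group over the integers mod `p`: power series congruent to `t` mod `t ^ 2`. -/
def Nott (p : ℕ) : Type := {f : (ZMod p)⟦X⟧ // X ^ 2 ∣ f - X}

variable {p : ℕ}

instance : Mul (Nott p) := ⟨fun f g => ⟨f.1.subst g.1, mul_ok f.2 g.2⟩⟩
instance : One (Nott p) := ⟨⟨X, one_ok⟩⟩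
instance : Inv (Nott p) := ⟨fun f => ⟨f.1.substInvOfIsUnit (c1 f.2), inv_ok f.2⟩⟩

theorem assoc (f g h : Nott p) : f * g * h = f * (g * h) :=
  Subtype.ext (subst_comp_subst_apply (hs (c0 g.2)) (hs (c0 h.2)) f.1)

theorem one_mul' (f : Nott p) : 1 * f = f := Subtype.ext (subst_X (hs (c0 f.2)))

theorem inv_mul' (f : Nott p) : f⁻¹ * f = 1 :=
  Subtype.ext (subst_substInvOfIsUnit_left f.1 (c0 f.2) (c1 f.2))

instance : Group (Nott p) := Group.ofLeftAxioms assoc one_mul' inv_mul'

/-- The coefficient sequence. -/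
def cf (f : Nott p) (n : ℕ) : ZMod p := coeff n f.1

instance : TopologicalSpace (Nott p) := TopologicalSpace.induced cf inferInstance

theorem mul_val (f g : Nott p) : (f * g).1 = f.1.subst g.1 := rfl
theorem one_val : (1 : Nott p).1 = X := rfl

theorem cmul {n : ℕ} {f f' g g' : Nott p} (a : X ^ n ∣ f.1 - f'.1) (b : X ^ n ∣ g.1 - g'.1) :
    X ^ n ∣ (f * g).1 - (f' * g').1 := by
  have := dvd_add (dvdL (c0 g.2) a) (dvdR (c0 g.2) (c0 g'.2) b f'.1)
  rwa [sub_add_sub_cancel] at this

theorem crefl {n : ℕ} (f : Nott p) : X ^ n ∣ f.1 - f.1 := by simp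

theorem cinv {n : ℕ} {f f' : Nott p} (a : X ^ n ∣ f.1 - f'.1) : X ^ n ∣ (f⁻¹).1 - (f'⁻¹).1 := by
  have := cmul (crefl f⁻¹) (cmul (dvd_sub_comm.1 a) (crefl f'⁻¹))
  rwa [mul_inv_cancel, mul_one, inv_mul_cancel_left] at this

theorem cont (n : ℕ) : Continuous fun f : Nott p => cf f n :=
  (continuous_apply n).comp (continuous_induced_dom (f := cf))

theorem evt (n : ℕ) (f : Nott p) : ∀ᶠ g in 𝓝 f, X ^ n ∣ g.1 - f.1 := by
  simp only [X_pow_dvd_iff, map_sub, sub_eq_zero]
  exact (Set.finite_lt_nat n).eventually_all.2 fun m _ =>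
    (cont m).continuousAt.eventually ((isOpen_discrete {cf f m}).mem_nhds rfl)

theorem tendN {ι : Type} {l : Filter ι} {y : ι → Nott p} {f : Nott p}
    (h : ∀ n, ∀ᶠ i in l, X ^ n ∣ (y i).1 - f.1) : Tendsto y l (𝓝 f) := by
  rw [nhds_induced, tendsto_comap_iff, tendsto_pi_nhds]
  refine fun n => tendsto_const_nhds.congr' ((h (n + 1)).mono fun i e => ?_)
  have := X_pow_dvd_iff.1 e n n.lt_succ_self
  rw [map_sub, sub_eq_zero] at this
  exact this.symm

theorem cont_mul : Continuous fun x : Nott p × Nott p => x.1 * x.2 :=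
  continuous_iff_continuousAt.2 fun x => tendN fun n =>
    ((continuous_fst.continuousAt.eventually (evt n x.1)).and
      (continuous_snd.continuousAt.eventually (evt n x.2))).mono fun _ e => cmul e.1 e.2

theorem cont_inv : Continuous fun x : Nott p => x⁻¹ :=
  continuous_iff_continuousAt.2 fun x => tendN fun n => (evt n x).mono fun _ e => cinv e

instance : IsTopologicalGroup (Nott p) where
  continuous_mul := cont_mul
  continuous_inv := cont_inv

/-- The closed lower central series; index `i` is the term usually numbered `i + 1`. -/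
def lcs (G : Type) [Group G] [TopologicalSpace G] [IsTopologicalGroup G] : ℕ → Subgroup G
  | 0 => ⊤
  | i + 1 => (⁅lcs G i, ⊤⁆ : Subgroup G).topologicalClosure

instance lcs_normal (G : Type) [Group G] [TopologicalSpace G] [IsTopologicalGroup G] (i : ℕ) :
    (lcs G i).Normal := by
  induction i with
  | zero => exact inferInstanceAs (⊤ : Subgroup G).Normal
  | succ i ih => exact Subgroup.is_normal_topologicalClosure _

/-- A pro-`p` group: compact, Hausdorff, totally disconnected, and every open normal subgroup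
has index a power of `p`. -/
def IsProP (p : ℕ) (G : Type) [Group G] [TopologicalSpace G] : Prop :=
  CompactSpace G ∧ T2Space G ∧ TotallyDisconnectedSpace G ∧
    ∀ U : Subgroup G, U.Normal → IsOpen (U : Set G) → ∃ k : ℕ, U.index = p ^ k

end

end Pool.Agent.H.MP_e06b60_al
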